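import Pool.Agent.Helper79K9.RD.Mt

set_option autoImplicit false
set_option linter.unusedSectionVars false
set_option linter.unusedSimpArgs false

namespace Pool.Agent.Helper79K9.RD

open SimpleGraph Finset

variable {V : Type*} [Fintype V] [DecidableEq V] {G : SimpleGraph V}

/-- alternating paths of even length from `b`; the list of vertices is in reverse order -/
inductive Alt (G : SimpleGraph V) (m : V → V) (S : Set V) (b : V) : V → List V → Prop
  | nil : Alt G m S b b [b]
  | step {d : V} {l : List V} {a : V} : Alt G m S b d l → G.Adj d a → a ∉ l → a ∉ S → m a ≠ a →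
      m a ∉ S → Alt G m S b (m a) (m a :: a :: l)

namespace Alt

variable {m : V → V} {S : Set V} {b d : V} {l : List V}

theorem head (h : Alt G m S b d l) : ∃ t, l = d :: t := by
  cases h with
  | nil => exact ⟨[], rfl⟩
  | step h _ _ _ _ _ => exact ⟨_, rfl⟩

theorem mem (h : Alt G m S b d l) : d ∈ l := by
  obtain ⟨t, rfl⟩ := h.head; simp

theorem memb (h : Alt G m S b d l) : b ∈ l := by
  induction h with
  | nil => simp
  | step _ _ _ _ _ _ ih => simp [ih]

theorem ne (h : Alt G m S b d l) : l ≠ [] := by
  obtain ⟨t, rfl⟩ := h.head; simp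

theorem last (h : Alt G m S b d l) : l.getLast h.ne = b := by
  induction h with
  | nil => simp
  | step h _ _ _ _ _ ih => 
    rw [List.getLast_cons (by simp), List.getLast_cons h.ne, ih]

theorem odd (h : Alt G m S b d l) : Odd l.length := by
  induction h with
  | nil => simp
  | step _ _ _ _ _ _ ih =>
    simp only [List.length_cons]
    rw [add_assoc]
    exact ih.add_even (by decide)

theorem cl (h : Alt G m S b d l) (hi : ∀ x, m (m x) = x) (hb : m b = b) :
    ∀ x ∈ l, m x ∈ l := by
  induction h with
  | nil => simp [hb]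
  | step _ _ _ _ _ _ ih =>
    intro x hx
    simp only [List.mem_cons] at hx ⊢
    rcases hx with rfl | rfl | hx
    · right; left; exact hi _
    · left; rfl
    · right; right; exact ih x hx

theorem ma (h : Alt G m S b d l) (hi : ∀ x, m (m x) = x) (hb : m b = b) {a : V} (ha : a ∉ l) :
    m a ∉ l := fun h' => ha (by simpa [hi] using h.cl hi hb _ h')

theorem nodup (h : Alt G m S b d l) (hi : ∀ x, m (m x) = x) (hb : m b = b) : l.Nodup := by
  induction h with
  | nil => simp
  | step h _ ha _ hn _ ih =>
    rw [List.nodup_cons, List.nodup_cons]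
    refine ⟨?_, ha, ih⟩
    simp only [List.mem_cons, not_or]
    exact ⟨hn, h.ma hi hb ha⟩

theorem chain (h : Alt G m S b d l) (hm : Mt G m) : l.IsChain G.Adj := by
  induction h with
  | nil => simp
  | step h hda _ _ hn _ ih =>
    obtain ⟨t, rfl⟩ := h.head
    rw [List.isChain_cons_cons, List.isChain_cons_cons]
    exact ⟨(hm.adj _ hn).symm, hda.symm, ih⟩

theorem outS (h : Alt G m S b d l) : ∀ x ∈ l, x ∈ S → x = b := by
  induction h with
  | nil => simp
  | step h _ _ ha _ hma ih =>
    intro x hx hxS
    simp only [List.mem_cons] at hx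
    rcases hx with rfl | rfl | hx
    · exact absurd hxS hma
    · exact absurd hxS ha
    · exact ih x hx hxS

theorem split (h : Alt G m S b d l) : ∀ x ∈ l,
    (∃ l', Alt G m S b x l' ∧ ∀ z ∈ l', z ∈ l) ∨
    (∃ t r d', l = t ++ x :: r ∧ Odd t.length ∧ Alt G m S b d' r ∧ G.Adj d' x ∧ x ∉ r ∧ x ∉ S) := by
  induction h with
  | nil =>
    intro x hx
    simp only [List.mem_singleton] at hx
    subst hx
    exact Or.inl ⟨_, Alt.nil, fun z hz => hz⟩
  | @step d l a h hda ha haS hn hma ih =>
    intro x hx
    simp only [List.mem_cons] at hx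
    rcases hx with rfl | rfl | hx
    · exact Or.inl ⟨_, Alt.step h hda ha haS hn hma, fun z hz => hz⟩
    · exact Or.inr ⟨[m x], l, d, rfl, by simp, h, hda, ha, haS⟩
    · rcases ih x hx with ⟨l', h1, h2⟩ | ⟨t, r, d', rfl, h2, h3⟩
      · exact Or.inl ⟨l', h1, fun z hz => by simp [h2 z hz]⟩
      · refine Or.inr ⟨m a :: a :: t, r, d', by simp, ?_, h3⟩
        simp only [List.length_cons]
        rw [add_assoc]
        exact h2.add_even (by decide)

theorem toE (h : Alt G m S b d l) : Alt G m ∅ b d l := by
  induction h with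
  | nil => exact Alt.nil
  | step h hda ha haS hn hma ih => exact Alt.step ih hda ha (by simp) hn (by simp)

theorem toS (h : Alt G m ∅ b d l) (hi : ∀ x, m (m x) = x) (hb : m b = b)
    (hS : ∀ x ∈ l, x ∈ S → x = b) : Alt G m S b d l := by
  induction h with
  | nil => exact Alt.nil
  | @step d l a h hda ha haS hn hma ih =>
    have hab : a ≠ b := fun e => ha (e ▸ h.memb)
    refine Alt.step (ih fun x hx hxS => hS x (by simp [hx]) hxS) hda ha
      (fun h' => hab (hS a (by simp) h')) hn (fun h' => ?_)
    have := hS (m a) (by simp) h'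
    exact hab (by rw [← hi a, this, hb])

/-- change the beginning of a path -/
theorem prepend {m' m'' : V → V} {d x e a : V} {L : List V} (h : Alt G m' ∅ d x L)
    (hL : ∀ y ∈ L, y ≠ d → m'' y = m' y) (ha : m'' a = d) (haL : a ∉ L) (he : e ∉ L)
    (hae : a ≠ e) (hadj : G.Adj e a) : Alt G m'' ∅ e x (L ++ [a, e]) := by
  induction h with
  | nil =>
    have h1 : Alt G m'' ∅ e (m'' a) [m'' a, a, e] := by
      refine Alt.step Alt.nil hadj (by simpa using hae) (by simp) ?_ (by simp)
      rw [ha]; intro h; exact haL (by simp [h])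
    rw [ha] at h1
    exact h1
  | @step d' l' a' h hda ha' haS hn hma ih =>
    have h1 := ih (fun y hy hyd => hL y (by simp [hy]) hyd)
      (fun h' => haL (by simp [h'])) (fun h' => he (by simp [h']))
    have h2 : a' ≠ d := fun h' => ha' (h' ▸ h.memb)
    have h3 : m'' a' = m' a' := hL a' (by simp) h2
    rw [← h3]
    have h4 : a' ∉ l' ++ [a, e] := by
      simp only [List.mem_append, List.mem_cons, List.not_mem_nil, or_false, not_or]
      refine ⟨ha', ?_, ?_⟩
      · rintro rfl; exact haL (by simp)
      · rintro rfl; exact he (by simp)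
    exact Alt.step h1 hda h4 (by simp) (by rw [h3]; exact hn) (by simp)

/-- exchange the edges along an alternating path -/
theorem shift (h : Alt G m S b d l) (hm : MM G m) (hb : m b = b) :
    ∃ m', MM G m' ∧ m' d = d ∧ Alt G m' ∅ d b l.reverse ∧ ∀ x ∉ l, m' x = m x := by
  induction h with
  | nil => exact ⟨m, hm, hb, by simpa using Alt.nil, fun _ _ => rfl⟩
  | @step d l a h hda ha haS hn hma ih =>
    obtain ⟨m', hm', hd, hA, ho⟩ := ih
    have ea : m' a = m a := ho a ha
    obtain ⟨h1, h2, h3⟩ := mm_slide hm' hd hda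
    have hml : m a ∉ l := h.ma hm.inv hb ha
    have had : a ≠ d := hda.ne'
    refine ⟨slide m' d a, h3, ?_, ?_, ?_⟩
    · rw [← ea]; exact slide_mu h1 h2
    · have := hA.prepend (m'' := slide m' d a) (e := m a) (a := a) ?_ (slide_u m' had)
        (by simpa using ha) (by simpa using hml) (Ne.symm hn) (hm.adj a hn).symm
      · simpa using this
      · intro y hy hyd
        rw [List.mem_reverse] at hy
        refine slide_of hyd ?_ ?_
        · rintro rfl; exact ha hy
        · rintro rfl; rw [ea] at hy; exact hml hy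
    · intro x hx
      simp only [List.mem_cons, not_or] at hx
      rw [slide_of ?_ hx.2.1 ?_, ho x hx.2.2]
      · rintro rfl; exact hx.2.2 h.mem
      · rw [ea]; exact hx.1

theorem dm (h : Alt G m S b d l) (hm : MM G m) (hb : m b = b) : Dm G d := by
  obtain ⟨m', h1, h2, _⟩ := h.shift hm hb
  exact ⟨m', h1, h2⟩

end Alt

section Sys

variable (G)

/-- even vertices -/
def Dh (S : Set V) (K : (V → V) → V → Prop) (d : V) : Prop :=
  ∃ m b l, K m b ∧ Alt G m S b d l

/-- odd vertices -/
def Ah (S : Set V) (K : (V → V) → V → Prop) (a : V) : Prop :=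
  ∃ m b d l, K m b ∧ Alt G m S b d l ∧ G.Adj d a ∧ a ∉ l ∧ a ∉ S

/-- all reached vertices -/
def Rh (S : Set V) (K : (V → V) → V → Prop) (x : V) : Prop :=
  x ∈ S ∨ Dh G S K x ∨ Ah G S K x

/-- the properties of an odd cycle with vertex set `S` and of the pairs of a maximum matching and
a vertex of the cycle missed by it, such that the rest of the cycle is matched along the cycle -/
structure Sys (S : Set V) (K : (V → V) → V → Prop) : Prop where
  mm : ∀ {m b}, K m b → MM G m
  mem : ∀ {m b}, K m b → b ∈ S
  exp : ∀ {m b}, K m b → m b = b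
  cl : ∀ {m b}, K m b → ∀ x ∈ S, m x ∈ S
  rot : ∀ {m b}, K m b → ∀ v ∈ S, ∃ m', K m' v ∧ ∀ x ∉ S, m' x = m x
  loc : ∀ {m b m'}, K m b → MM G m' → (∀ x ∈ S, m' x = m x) → K m' b
  nonempty : ∃ m b, K m b
  eng : ∀ L, OC G L → (∃ x ∈ L, Rh G S K x) → ∀ x ∈ L, x ∈ S

end Sys

namespace Sys

variable {S : Set V} {K : (V → V) → V → Prop}

theorem S_sub (H : Sys G S K) {v : V} (hv : v ∈ S) : Dh G S K v := by
  obtain ⟨m, b, h⟩ := H.nonempty
  obtain ⟨m', h', _⟩ := H.rot h v hv
  exact ⟨m', v, [v], h', Alt.nil⟩

theorem dh_dm (H : Sys G S K) {v : V} (hv : Dh G S K v) : Dm G v := by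
  obtain ⟨m, b, l, h, h'⟩ := hv
  exact h'.dm (H.mm h) (H.exp h)

theorem ncl (H : Sys G S K) {m : V → V} {b : V} (h : K m b) {x : V} (hx : x ∉ S) : m x ∉ S :=
  fun h' => hx (by simpa [(H.mm h).inv] using H.cl h _ h')

theorem next (H : Sys G S K) {m : V → V} {b d a : V} {l : List V} (h : K m b)
    (hA : Alt G m S b d l) (hda : G.Adj d a) (hal : a ∉ l) (haS : a ∉ S) :
    m a ≠ a ∧ Alt G m S b (m a) (m a :: a :: l) := by
  obtain ⟨m', h1, h2, h3, h4⟩ := hA.shift (H.mm h) (H.exp h)
  have := (mm_slide h1 h2 hda).1
  rw [h4 a hal] at this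
  exact ⟨this, Alt.step hA hda hal haS this (H.ncl h haS)⟩

theorem nbr (H : Sys G S K) {v u : V} (hv : Dh G S K v) (hu : G.Adj v u) : Rh G S K u := by
  obtain ⟨m, b, l, h, hA⟩ := hv
  by_cases huS : u ∈ S
  · exact Or.inl huS
  by_cases hul : u ∈ l
  · rcases hA.split u hul with ⟨l', h1, _⟩ | ⟨t, r, d', rfl, h2, h3, h4, h5, h6⟩
    · exact Or.inr (Or.inl ⟨m, b, l', h, h1⟩)
    · exact Or.inr (Or.inr ⟨m, b, d', r, h, h3, h4, h5, h6⟩)
  · exact Or.inr (Or.inr ⟨m, b, v, l, h, hA, hu, hul, huS⟩)

theorem dm_dh (H : Sys G S K) {v u : V} (hv : Dh G S K v) (hu : Dm G u) (h : G.Adj v u) :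
    v ∈ S ∧ u ∈ S := by
  obtain ⟨L, hL, h1, h2⟩ := gallai (H.dh_dm hv) hu h
  have := H.eng L hL ⟨v, h1, Or.inr (Or.inl hv)⟩
  exact ⟨this v h1, this u h2⟩

theorem ah_ndm (H : Sys G S K) {a : V} (ha : Ah G S K a) : ¬ Dm G a := by
  obtain ⟨m, b, d, l, h, hA, hda, hal, haS⟩ := ha
  intro h'
  exact haS (H.dm_dh ⟨m, b, l, h, hA⟩ h' hda).2

/-- extension of a path along an alternating walk, backwards -/
theorem back {mz M my : V → V} {bz y : V} {lz : List V} (n : ℕ)
    (hMy : Mt G my) (hM : Mt G M) (hy : my y = y)
    (hns : ∀ i < n, sq my M y (i + 1) ≠ sq my M y i)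
    (hS : ∀ i < n, sq my M y i ∉ S) (hl : ∀ i < n, sq my M y i ∉ lz)
    (hm : ∀ i < n, mz (sq my M y i) = M (sq my M y i)) (hn : Even n)
    (h : Alt G mz S bz (sq my M y n) lz) :
    ∀ r, 2 * r ≤ n → ∃ L, Alt G mz S bz (sq my M y (n - 2 * r)) L ∧
      ∀ z ∈ L, z ∈ lz ∨ ∃ t, n - 2 * r ≤ t ∧ t < n ∧ z = sq my M y t := by
  intro r
  induction r with
  | zero => intro _; exact ⟨lz, h, fun z hz => Or.inl hz⟩
  | succ r ih =>
    intro hr
    obtain ⟨L, h1, h2⟩ := ih (by omega)
    obtain ⟨k, hk⟩ : ∃ k, n - 2 * r = k + 2 := ⟨n - 2 * r - 2, by omega⟩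
    have hkn : n - 2 * (r + 1) = k := by omega
    have hke : Even k := by
      have : n = k + 2 * (r + 1) := by omega
      rw [this] at hn
      simpa [Nat.even_add] using hn
    rw [hk] at h1
    rw [hkn]
    have e1 : M (sq my M y (k + 1)) = sq my M y k := sq_even' hM.inv hke
    have hin := sq_inj hMy.inv hM.inv hy
    have a1 : G.Adj (sq my M y (k + 2)) (sq my M y (k + 1)) :=
      (sq_adj hMy hM (hns (k + 1) (by omega))).symm
    have a2 : sq my M y (k + 1) ∉ L := by
      intro hz
      rcases h2 _ hz with hz | ⟨t, ht1, ht2, ht3⟩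
      · exact hl (k + 1) (by omega) hz
      · exact hin t (fun i hi => hns i (by omega)) (k + 1) (by omega) ht3
    have e2 : mz (sq my M y (k + 1)) = sq my M y k := by rw [hm (k + 1) (by omega), e1]
    have a3 : mz (sq my M y (k + 1)) ≠ sq my M y (k + 1) := by
      rw [e2]; exact (hns k (by omega)).symm
    have := Alt.step h1 a1 a2 (hS (k + 1) (by omega)) a3 (by rw [e2]; exact hS k (by omega))
    rw [e2] at this
    refine ⟨_, this, ?_⟩
    intro z hz
    simp only [List.mem_cons] at hz
    rcases hz with rfl | rfl | hz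
    · exact Or.inr ⟨k, le_rfl, by omega, rfl⟩
    · exact Or.inr ⟨k + 1, by omega, by omega, rfl⟩
    · rcases h2 z hz with h | ⟨t, ht1, ht2, ht3⟩
      · exact Or.inl h
      · exact Or.inr ⟨t, by omega, ht2, ht3⟩

/-- neighbours of odd vertices which are missed by some maximum matching are even vertices -/
theorem ah_nbr (H : Sys G S K) {a y : V} (ha : Ah G S K a) (hy : Dm G y) (hay : G.Adj a y) :
    Dh G S K y := by
  classical
  have hand := H.ah_ndm ha
  have hRa : Rh G S K a := Or.inr (Or.inr ha)
  obtain ⟨m, b, d, l, hK, hA, hda, hal, haS⟩ := ha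
  have hmm := H.mm hK
  have hb := H.exp hK
  obtain ⟨hne, hAe⟩ := H.next hK hA hda hal haS
  by_cases hyS : y ∈ S
  · exact H.S_sub hyS
  by_cases hyl : y ∈ m a :: a :: l
  · rcases hAe.split y hyl with ⟨l', h1, _⟩ | ⟨t, r, d', _, h2, h3, h4, h5, h6⟩
    · exact ⟨m, b, l', hK, h1⟩
    · exact absurd hy (H.ah_ndm ⟨m, b, d', r, hK, h3, h4, h5, h6⟩)
  -- the matchings which miss `d` and `m a`
  obtain ⟨m', hm', hd, hA', ho⟩ := hA.shift hmm hb
  have ea : m' a = m a := ho a hal
  obtain ⟨g1, g2, hM⟩ := mm_slide hm' hd hda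
  set M := slide m' d a with hMdef
  have had : a ≠ d := hda.ne'
  have hel : m a ∉ l := hA.ma hmm.inv hb hal
  have Md : M d = a := slide_v _ _ _
  have Ma : M a = d := slide_u m' had
  have Me : M (m a) = m a := by rw [← ea]; exact slide_mu g1 g2
  have Mo : ∀ x, x ≠ d → x ≠ a → x ≠ m a → M x = m' x := fun x h1 h2 h3 =>
    slide_of h1 h2 (by rw [ea]; exact h3)
  have hdl := hA.mem
  have cl' : ∀ x ∈ l, m' x ∈ l := by
    intro x hx
    have := hA'.cl hm'.inv hd x (by simpa using hx)
    simpa using this
  -- `M` preserves `H`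
  have hH : ∀ x, (x ∈ a :: l ∨ x ∈ S) → (M x ∈ a :: l ∨ M x ∈ S) := by
    intro x hx
    by_cases h1 : x = d
    · subst h1; left; rw [Md]; simp
    by_cases h2 : x = a
    · subst h2; left; rw [Ma]; simp [hdl]
    by_cases h3 : x ∈ l
    · left
      have : x ≠ m a := fun e => hel (e ▸ h3)
      rw [Mo x h1 h2 this]
      simp [cl' x h3]
    · have hxS : x ∈ S := by
        rcases hx with hx | hx
        · simp [h2, h3] at hx
        · exact hx
      right
      have : x ≠ m a := fun e => H.ncl hK haS (e ▸ hxS)
      rw [Mo x h1 h2 this, ho x h3]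
      exact H.cl hK x hxS
  have hAa : (a :: l).Nodup := by
    rw [List.nodup_cons]; exact ⟨hal, hA.nodup hmm.inv hb⟩
  have hAc : (a :: l).IsChain G.Adj := by
    have := hAe.chain hmm.toMt
    exact this.tail
  have hyH : ¬ (y ∈ a :: l ∨ y ∈ S) := by
    rintro (h | h)
    · exact hyl (by simp only [List.mem_cons] at h ⊢; right; exact h)
    · exact hyS h
  obtain ⟨my, hmy, hy'⟩ := hy
  set Q := orb my M y with hQ
  by_cases hcase : ∃ n, sq my M y n ∈ a :: l ∨ sq my M y n ∈ S
  · -- the walk meets the path
    set n := Nat.find hcase with hn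
    have hnH := Nat.find_spec hcase
    rw [← hn] at hnH
    have hmin : ∀ i < n, ¬ (sq my M y i ∈ a :: l ∨ sq my M y i ∈ S) :=
      fun i hi => Nat.find_min hcase hi
    have hns : ∀ i < n, sq my M y (i + 1) ≠ sq my M y i := by
      obtain ⟨n', h1, h2⟩ := sq_reach hmy.inv hM.inv hy' (mem_orb.2 ⟨n, rfl⟩)
      have : n ≤ n' := by
        by_contra hlt
        exact hmin n' (by omega) (by rw [h1]; exact hnH)
      exact fun i hi => h2 i (by omega)
    have hin := sq_inj hmy.inv hM.inv hy'
    have hn0 : n ≠ 0 := by
      intro h0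
      rw [h0] at hnH
      exact hyH hnH
    have hne' : Even n := by
      by_contra hodd
      obtain ⟨k, hk⟩ : ∃ k, n = k + 1 := ⟨n - 1, by omega⟩
      have hke : Even k := by
        by_contra h
        exact hodd (by rw [hk]; exact Nat.even_add_one.2 h)
      have := hH _ hnH
      rw [hk, sq_even' hM.inv hke] at this
      exact hmin k (by omega) this
    have hqe : ∀ i < n, sq my M y i ≠ m a := by
      intro i hi e
      by_cases hie : Even i
      · apply hns i hi
        rw [sq_even hie, e, Me]
      · obtain ⟨k, rfl⟩ : ∃ k, i = k + 1 := by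
          cases i with
          | zero => exact absurd (by simp) hie
          | succ k => exact ⟨k, rfl⟩
        have hke : Even k := by
          by_contra h
          exact hie (Nat.even_add_one.2 h)
        have := sq_even' (m₁ := my) (v := y) hM.inv hke
        rw [e, Me] at this
        exact hns k (by omega) (by rw [e, this])
    have hqm : ∀ i < n, m (sq my M y i) = M (sq my M y i) := by
      intro i hi
      have h1 := hmin i hi
      rw [not_or, List.mem_cons, not_or] at h1
      have h2 : sq my M y i ≠ d := fun e => h1.1.2 (e ▸ hdl)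
      rw [Mo _ h2 h1.1.1 (hqe i hi), ho _ h1.1.2]
    have hqS : ∀ i < n, sq my M y i ∉ S := fun i hi h => hmin i hi (Or.inr h)
    have hql : ∀ i < n, sq my M y i ∉ a :: l := fun i hi h => hmin i hi (Or.inl h)
    by_cases hxS : sq my M y n ∈ S
    · obtain ⟨m'', h1, h2⟩ := H.rot hK _ hxS
      obtain ⟨L, hL, _⟩ := back (mz := m'') (M := M) (my := my) (bz := sq my M y n) (y := y)
        (lz := [sq my M y n]) n hmy.toMt hM.toMt hy' hns hqS (by
          intro i hi h
          rw [List.mem_singleton] at h
          exact hin n hns i hi h)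
        (by intro i hi; rw [h2 _ (hqS i hi), hqm i hi]) hne' Alt.nil (n / 2) (by omega)
      have e : n - 2 * (n / 2) = 0 := by
        obtain ⟨k, hk⟩ := hne'; omega
      rw [e] at hL
      exact ⟨m'', _, L, h1, hL⟩
    have hxl : sq my M y n ∈ a :: l := hnH.resolve_right hxS
    -- the contradiction if the vertex is odd
    have contra : ∀ t r : List V, a :: l = t ++ sq my M y n :: r → Even t.length → False := by
      intro t r htr hte
      set x := sq my M y n with hx
      have hOC : OC G ((List.range n).map (sq my M y) ++ (x :: t.reverse)) := by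
        have hpre : (t ++ [x]) <+: a :: l := ⟨r, by rw [htr]; simp⟩
        have hnd : (t ++ [x]).Nodup := hAa.sublist hpre.sublist
        have hch : (t ++ [x]).IsChain G.Adj := by
          have h' : ((t ++ [x]) ++ r).IsChain G.Adj := by
            have e : (t ++ [x]) ++ r = a :: l := by rw [htr]; simp
            rw [e]; exact hAc
          exact h'.left_of_append
        have hrev : (x :: t.reverse).IsChain G.Adj := by
          have : x :: t.reverse = (t ++ [x]).reverse := by simp
          rw [this, List.isChain_reverse]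
          exact hch.imp fun _ _ h => h.symm
        refine ⟨by simp, ?_, ?_, ?_, ?_, ?_⟩
        · rw [List.nodup_append]
          refine ⟨?_, ?_, ?_⟩
          · rw [List.nodup_map_iff_inj_on List.nodup_range]
            intro i hi j hj hij
            rw [List.mem_range] at hi hj
            rcases Nat.lt_trichotomy i j with h | h | h
            · exact absurd hij (hin j (fun k hk => hns k (by omega)) i h)
            · exact h
            · exact absurd hij.symm (hin i (fun k hk => hns k (by omega)) j h)
          · have : x :: t.reverse = (t ++ [x]).reverse := by simp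
            rw [this, List.nodup_reverse]
            exact hnd
          · intro u hu w hw e
            subst e
            rw [List.mem_map] at hu
            obtain ⟨i, hi, rfl⟩ := hu
            rw [List.mem_range] at hi
            apply hql i hi
            apply hpre.subset
            simp only [List.mem_cons, List.mem_reverse] at hw
            rcases hw with h | h
            · rw [h]; simp
            · simp [h]
        · rw [List.isChain_append]
          refine ⟨?_, hrev, ?_⟩
          · rw [List.isChain_map, List.isChain_iff_getElem]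
            intro i hi
            simp only [List.length_range] at hi
            simp only [List.getElem_range]
            exact sq_adj hmy.toMt hM.toMt (hns i (by omega))
          · intro u hu w hw
            simp only [List.head?_cons, Option.mem_def, Option.some.injEq] at hw
            subst hw
            obtain ⟨k, hk⟩ : ∃ k, n = k + 1 := ⟨n - 1, by omega⟩
            rw [hk, List.range_succ] at hu
            simp only [List.map_append, List.map_cons, List.map_nil, List.getLast?_append,
              List.getLast?_singleton, Option.some_or, Option.mem_def, Option.some.injEq] at hu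
            subst hu
            have := sq_adj hmy.toMt hM.toMt (hns k (by omega))
            rw [← hk] at this
            exact this
        · have e1 : ((List.range n).map (sq my M y) ++ (x :: t.reverse)).getLast (by simp) = a := by
            rw [List.getLast_append_of_ne_nil _ (by simp)]
            cases t with
            | nil =>
              simp only [List.nil_append, List.cons.injEq] at htr
              simp [htr.1]
            | cons z t =>
              simp only [List.cons_append, List.cons.injEq] at htr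
              simp [htr.1]
          have e2 : ((List.range n).map (sq my M y) ++ (x :: t.reverse)).head (by simp) = y := by
            obtain ⟨k, hk⟩ : ∃ k, n = k + 1 := ⟨n - 1, by omega⟩
            simp only [hk, List.range_succ_eq_map, List.map_cons, List.cons_append, List.head_cons]
            rfl
          rw [e1, e2]
          exact hay
        · simp only [List.length_append, List.length_map, List.length_range, List.length_cons,
            List.length_reverse]
          rw [← add_assoc]
          exact (hne'.add hte).add_one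
        · simp only [List.length_append, List.length_map, List.length_range, List.length_cons,
            List.length_reverse]
          have : n ≠ 1 := by rintro h; rw [h] at hne'; exact absurd hne' (by decide)
          omega
      have hmem : a ∈ (List.range n).map (sq my M y) ++ (x :: t.reverse) := by
        have : a ∈ t ++ [x] := by
          cases t with
          | nil =>
            simp only [List.nil_append, List.cons.injEq] at htr
            simp [htr.1]
          | cons z t =>
            simp only [List.cons_append, List.cons.injEq] at htr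
            simp [htr.1]
        simp only [List.mem_append, List.mem_cons, List.mem_reverse, List.mem_singleton] at this ⊢
        tauto
      exact haS (H.eng _ hOC ⟨a, hmem, hRa⟩ a hmem)
    rw [List.mem_cons] at hxl
    rcases hxl with hxa | hxl
    · exact absurd (contra [] l (by simp [hxa]) (by simp)) (by simp)
    rcases hA.split _ hxl with ⟨l', h1, h1'⟩ | ⟨t, r, d', h1, h2, _⟩
    · obtain ⟨L, hL, _⟩ := back (mz := m) (M := M) (my := my) (bz := b) (y := y)
        (lz := l') n hmy.toMt hM.toMt hy' hns hqS (by
          intro i hi h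
          exact hql i hi (List.mem_cons_of_mem _ (h1' _ h)))
        hqm hne' h1 (n / 2) (by omega)
      have e : n - 2 * (n / 2) = 0 := by
        obtain ⟨k, hk⟩ := hne'; omega
      rw [e] at hL
      exact ⟨m, b, L, hK, hL⟩
    · exfalso
      refine contra (a :: t) r (by rw [h1]; simp) ?_
      simp only [List.length_cons]
      exact h2.add_one
  · -- the walk does not meet the path
    push Not at hcase
    have hQH : ∀ x ∈ Q, x ∉ a :: l ∧ x ∉ S := by
      intro x hx
      obtain ⟨n, rfl⟩ := mem_orb.1 hx
      exact hcase n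
    have hMs := mm_mix hmy hM (orb_cl1 hmy.inv hy') (orb_cl2 (m₁ := my) (v := y) hM.inv)
    rw [← hQ] at hMs
    set Ms := mix Q my M with hMsdef
    have hyQ : y ∈ Q := mem_orb.2 ⟨0, rfl⟩
    have Msy : Ms y = y := by simp [hMsdef, mix, hyQ, hy']
    have MsH : ∀ x, (x ∈ a :: l ∨ x ∈ S) → Ms x = M x := by
      intro x hx
      have : x ∉ Q := by
        intro h
        have := hQH x h
        tauto
      simp [hMsdef, mix, this]
    have hyl' : y ∉ l := fun h => hyH (Or.inl (List.mem_cons_of_mem _ h))
    have hA2 : Alt G Ms ∅ y b (l.reverse ++ [a, y]) := by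
      refine hA'.prepend (m'' := Ms) ?_ ?_ (by simpa using hal) (by simpa using hyl') hay.ne hay.symm
      · intro z hz hzd
        rw [List.mem_reverse] at hz
        rw [MsH z (Or.inl (List.mem_cons_of_mem _ hz))]
        refine Mo z hzd ?_ ?_
        · rintro rfl; exact hal hz
        · rintro rfl; exact hel hz
      · rw [MsH a (Or.inl (by simp)), Ma]
    obtain ⟨ms, g1, g2, g3, g4⟩ := hA2.shift hMs Msy
    have hrev : (l.reverse ++ [a, y]).reverse = y :: a :: l := by simp
    rw [hrev] at g3
    have hloc : ∀ x ∈ S, ms x = m x := by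
      intro x hx
      by_cases hxb : x = b
      · rw [hxb, g2, hb]
      have hxl : x ∉ l := fun h => hxb (hA.outS x h hx)
      have hxa : x ≠ a := fun e => haS (e ▸ hx)
      have hxy : x ≠ y := fun e => hyS (e ▸ hx)
      rw [g4 x (by simp [hxl, hxa, hxy]), MsH x (Or.inr hx), Mo x ?_ hxa ?_, ho x hxl]
      · rintro rfl; exact hxl hdl
      · rintro rfl; exact H.ncl hK haS hx
    refine ⟨ms, b, y :: a :: l, H.loc hK g1 hloc, g3.toS g1.inv g2 ?_⟩
    intro x hx hxS
    simp only [List.mem_cons] at hx
    rcases hx with rfl | rfl | hx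
    · exact absurd hxS hyS
    · exact absurd hxS haS
    · exact hA.outS x hx hxS

/-- forward extension of a path along an alternating walk -/
theorem forw {M m0 : V → V} {e : V} (n : ℕ) (hM : Mt G M) (h0 : Mt G m0) (he : M e = e)
    (hns : ∀ i < n, sq M m0 e (i + 1) ≠ sq M m0 e i) :
    ∀ r, 2 * r ≤ n → ∃ L, Alt G M ∅ e (sq M m0 e (2 * r)) L ∧
      ∀ z ∈ L, ∃ t, t ≤ 2 * r ∧ z = sq M m0 e t := by
  intro r
  induction r with
  | zero => intro _; exact ⟨[e], Alt.nil, fun z hz => ⟨0, by omega, by simpa [sq] using hz⟩⟩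
  | succ r ih =>
    intro hr
    obtain ⟨L, h1, h2⟩ := ih (by omega)
    have hev : Even (2 * r) := by simp
    have hod : ¬ Even (2 * r + 1) := by simp [Nat.even_add_one]
    have a1 := sq_adj hM h0 (hns (2 * r) (by omega))
    have hin := sq_inj hM.inv h0.inv he
    have a2 : sq M m0 e (2 * r + 1) ∉ L := by
      intro hz
      obtain ⟨t, ht1, ht2⟩ := h2 _ hz
      exact hin (2 * r + 1) (fun i hi => hns i (by omega)) t (by omega) ht2.symm
    have e2 : M (sq M m0 e (2 * r + 1)) = sq M m0 e (2 * r + 2) := (sq_odd hod).symm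
    have := Alt.step h1 a1 a2 (by simp) (by rw [e2]; exact hns (2 * r + 1) (by omega)) (by simp)
    rw [e2] at this
    refine ⟨_, this, ?_⟩
    intro z hz
    simp only [List.mem_cons] at hz
    rcases hz with rfl | rfl | hz
    · exact ⟨2 * r + 2, by omega, rfl⟩
    · exact ⟨2 * r + 1, by omega, rfl⟩
    · obtain ⟨t, ht1, ht2⟩ := h2 z hz
      exact ⟨t, by omega, ht2⟩

/-- the partner of an odd vertex in any maximum matching is an even vertex outside the cycle -/
theorem partner (H : Sys G S K) {a b0 : V} {m0 : V → V} (ha : Ah G S K a) (hK0 : K m0 b0) :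
    Dh G S K (m0 a) ∧ m0 a ∉ S := by
  have hand := H.ah_ndm ha
  have hm0 := H.mm hK0
  have hma : m0 a ≠ a := fun e => hand ⟨m0, hm0, e⟩
  have haS : a ∉ S := by obtain ⟨_, _, _, _, _, _, _, _, h⟩ := ha; exact h
  refine ⟨H.ah_nbr ha ?_ (hm0.adj a hma), H.ncl hK0 haS⟩
  obtain ⟨m, b, d, l, hK, hA, hda, hal, _⟩ := ha
  obtain ⟨hne, hAe⟩ := H.next hK hA hda hal haS
  obtain ⟨M, hM, he, _, _⟩ := hAe.shift (H.mm hK) (H.exp hK)
  have hea : G.Adj (m a) a := ((H.mm hK).adj a hne).symm
  by_cases haQ : a ∈ orb M m0 (m a)
  · obtain ⟨n, h1, h2⟩ := sq_reach hM.inv hm0.inv he haQ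
    by_cases hn : Even n
    · exfalso
      apply hand
      obtain ⟨r, rfl⟩ : ∃ r, n = 2 * r := ⟨n / 2, by obtain ⟨k, hk⟩ := hn; omega⟩
      obtain ⟨L, h3, _⟩ := forw (2 * r) hM.toMt hm0.toMt he h2 r le_rfl
      rw [h1] at h3
      exact h3.dm hM he
    · obtain ⟨r, rfl⟩ : ∃ r, n = 2 * r + 1 := by
        rw [Nat.not_even_iff_odd] at hn
        obtain ⟨r, hr⟩ := hn
        exact ⟨r, hr⟩
      obtain ⟨L, h3, _⟩ := forw (2 * r) hM.toMt hm0.toMt he (fun i hi => h2 i (by omega)) r le_rfl
      have : m0 a = sq M m0 (m a) (2 * r) := by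
        have := sq_even' (m₁ := M) (v := m a) hm0.inv (even_two_mul r)
        rw [h1] at this
        exact this
      rw [this]
      exact h3.dm hM he
  · have h := mm_mix hM hm0 (orb_cl1 hM.inv he) (orb_cl2 (m₁ := M) (v := m a) hm0.inv)
    set Q := orb M m0 (m a) with hQ
    have heQ : m a ∈ Q := mem_orb.2 ⟨0, rfl⟩
    have h1 : mix Q M m0 (m a) = m a := by simp [mix, heQ, he]
    have h2 : mix Q M m0 a = m0 a := by simp [mix, haQ]
    obtain ⟨g1, g2, g3⟩ := mm_slide h h1 hea
    refine ⟨_, g3, ?_⟩
    rw [← h2]
    exact slide_mu g1 g2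

/-- a permutation which maps every vertex to a neighbour preserves the reached vertices -/
theorem perm (H : Sys G S K) (π : Equiv.Perm V) (hπ : ∀ v, G.Adj v (π v)) (x : V)
    (hx : Rh G S K x) : Rh G S K (π x) := by
  classical
  have hE : ∀ v, Dh G S K v → Rh G S K (π v) := fun v hv => H.nbr hv (hπ v)
  rcases hx with hx | hx | hx
  · exact hE x (H.S_sub hx)
  · exact hE x hx
  set A : Finset V := univ.filter fun a => Ah G S K a with hAdef
  set D : Finset V := univ.filter fun d => Dh G S K d ∧ d ∉ S with hDdef
  have hAD : A.card ≤ D.card := by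
    obtain ⟨m0, b0, hK0⟩ := H.nonempty
    refine card_le_card_of_injOn m0 ?_ ?_
    · intro a ha
      have ha : Ah G S K a := by simpa [hAdef] using ha
      have := H.partner ha hK0
      simp [hDdef, this]
    · intro a _ a' _ h
      have h : m0 a = m0 a' := h
      rw [← (H.mm hK0).inv a, h, (H.mm hK0).inv]
  have hDA : ∀ d ∈ D, ∀ u, G.Adj d u → u ∈ A := by
    intro d hd u hu
    simp only [hDdef, mem_filter, mem_univ, true_and] at hd
    simp only [hAdef, mem_filter, mem_univ, true_and]
    have : ¬ Dm G u := fun h => hd.2 (H.dm_dh hd.1 h hu).1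
    rcases H.nbr hd.1 hu with h | h | h
    · exact absurd (H.dh_dm (H.S_sub h)) this
    · exact absurd (H.dh_dm h) this
    · exact h
  have h2 : D.image (fun v => π.symm v) ⊆ A := by
    intro u hu
    rw [mem_image] at hu
    obtain ⟨d, hd, rfl⟩ := hu
    refine hDA d hd _ ?_
    have := hπ (π.symm d)
    rw [Equiv.apply_symm_apply] at this
    exact this.symm
  have h3 : D.image (fun v => π.symm v) = A := by
    apply eq_of_subset_of_card_le h2
    rw [card_image_of_injective _ π.symm.injective]
    exact hAD
  have hxA : x ∈ A := by simp [hAdef, hx]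
  rw [← h3, mem_image] at hxA
  obtain ⟨d, hd, rfl⟩ := hxA
  simp only [hDdef, mem_filter, mem_univ, true_and] at hd
  simp only [Equiv.apply_symm_apply]
  exact Or.inr (Or.inl hd.1)

end Sys

end Pool.Agent.Helper79K9.RD
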