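import Mathlib

set_option autoImplicit false

/-!
# R-disjoint graphs: definitions

All graphs are finite and simple. Matchings and cycles are given as subgraphs.
-/

namespace Pool.Agent.Helper79K9.RD

open SimpleGraph

variable {V : Type*} (G : SimpleGraph V)

/-- `C` is a cycle of `G`. -/
def IsCyc (C : G.Subgraph) : Prop :=
  ∃ (u : V) (p : G.Walk u u), p.IsCycle ∧ C = p.toSubgraph

/-- `C` is an odd cycle of `G`. -/
def IsOddCyc (C : G.Subgraph) : Prop :=
  ∃ (u : V) (p : G.Walk u u), p.IsCycle ∧ Odd p.length ∧ C = p.toSubgraph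

variable {G}

/-- `M` is a maximum matching of `G`: a matching with the largest number of edges. -/
def IsMaxMatching (M : G.Subgraph) : Prop :=
  M.IsMatching ∧ ∀ M' : G.Subgraph, M'.IsMatching → M'.edgeSet.ncard ≤ M.edgeSet.ncard

/-- `C` is an `M`-blossom: a cycle with `2t+1` vertices, exactly `t` of whose edges lie in `M`. -/
def IsBlossom (M C : G.Subgraph) : Prop :=
  IsCyc G C ∧ ∃ t : ℕ, C.verts.ncard = 2 * t + 1 ∧ (C.edgeSet ∩ M.edgeSet).ncard = t

/-- `b` is the base of the `M`-blossom `C`: it is a vertex of `C` which is not covered by the edges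
of `C` lying in `M`. -/
def IsBase (M C : G.Subgraph) (b : V) : Prop :=
  b ∈ C.verts ∧ ∀ e ∈ C.edgeSet ∩ M.edgeSet, b ∉ e

/-- The walk `P` is alternating with respect to `M`: of any two consecutive edges exactly one is in
`M`. -/
def IsAlternating (M : G.Subgraph) {u v : V} (P : G.Walk u v) : Prop :=
  ∀ i, i + 1 < P.length → (M.Adj (P.getVert i) (P.getVert (i + 1)) ↔
    ¬ M.Adj (P.getVert (i + 1)) (P.getVert (i + 2)))

/-- `P` is an `M`-stem of the blossom `C` with base `b`: a path of even length, alternating with
respect to `M`, from `b` to a vertex left uncovered by `M`, which meets `C` only in `b`. -/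
def IsStem (M C : G.Subgraph) {b v : V} (P : G.Walk b v) : Prop :=
  P.IsPath ∧ Even P.length ∧ IsAlternating M P ∧ v ∉ M.verts ∧
    ∀ x ∈ P.support, x ∈ C.verts → x = b

/-- The reach set `R(C)`: the union of the vertex sets of all `M`-flowers with blossom `C`, over
all maximum matchings `M`. -/
def reach (C : G.Subgraph) : Set V :=
  {x | ∃ (M : G.Subgraph) (b v : V) (P : G.Walk b v), IsMaxMatching M ∧ IsBlossom M C ∧
    IsBase M C b ∧ IsStem M C P ∧ (x ∈ C.verts ∨ x ∈ P.support)}

variable (G)

/-- `G` is `R`-disjoint: it has an odd cycle, `R(C)` is nonempty for every odd cycle `C`, and the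
sets `R(C)` of distinct odd cycles are disjoint. -/
structure RDisjoint : Prop where
  exists_odd : ∃ C : G.Subgraph, IsOddCyc G C
  nonempty : ∀ C : G.Subgraph, IsOddCyc G C → (reach C).Nonempty
  disjoint : ∀ C C' : G.Subgraph, IsOddCyc G C → IsOddCyc G C' → C ≠ C' →
    Disjoint (reach C) (reach C')

/-- The set `B(G)` of the vertices which are in none of the reach sets of the odd cycles. -/
def bipPart : Set V := {x | ∀ C : G.Subgraph, IsOddCyc G C → x ∉ reach C}

open Classical in
/-- The finite set of all odd cycles of `G`. -/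
noncomputable def oddCycles [Finite V] : Finset G.Subgraph :=
  (Set.toFinite {C : G.Subgraph | IsOddCyc G C}).toFinset

open Classical in
/-- `det A(G)` for the real `0/1` adjacency matrix `A(G)`. -/
noncomputable def detA [Finite V] : ℝ :=
  letI := Fintype.ofFinite V
  (G.adjMatrix ℝ).det

end Pool.Agent.Helper79K9.RD
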