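import Pool.Agent.Helper79K9.RD.Alt
import Pool.Agent.Helper79K9.RD.Defs

set_option autoImplicit false
set_option linter.unusedSectionVars false
set_option linter.unusedSimpArgs false

namespace Pool.Agent.Helper79K9.RD

open SimpleGraph Finset

variable {V : Type*} [Fintype V] [DecidableEq V] {G : SimpleGraph V}

/-- counting the edges of a graph all of whose edges are of the form `{v, f v}` -/
theorem count_edges (H : SimpleGraph V) (T : Finset V) (f : V → V)
    (h : ∀ v w, H.Adj v w ↔ v ∈ T ∧ w = f v) : 2 * H.edgeSet.ncard = T.card := by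
  classical
  have h1 := H.sum_degrees_eq_twice_card_edges
  have h2 : ∀ v, H.degree v = if v ∈ T then 1 else 0 := by
    intro v
    rw [← card_neighborFinset_eq_degree]
    by_cases hv : v ∈ T
    · have : H.neighborFinset v = {f v} := by
        ext w; simp [h, hv]
      simp [this, hv]
    · have : H.neighborFinset v = ∅ := by
        ext w; simp [h, hv]
      simp [this, hv]
  simp only [h2] at h1
  rw [Finset.sum_ite_mem, Finset.univ_inter, Finset.sum_const, smul_eq_mul, mul_one] at h1
  rw [h1, ← coe_edgeFinset H, Set.ncard_coe_finset]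

/-- the involution of a matching -/
noncomputable def toM (M : G.Subgraph) (hM : M.IsMatching) (v : V) : V := by
  classical
  exact if h : v ∈ M.verts then (hM h).choose else v

theorem toM_adj {M : G.Subgraph} (hM : M.IsMatching) {v w : V} :
    M.Adj v w ↔ v ∈ M.verts ∧ w = toM M hM v := by
  classical
  constructor
  · intro h
    have hv := M.edge_vert h
    refine ⟨hv, ?_⟩
    simp only [toM, hv, dite_true]
    exact (hM hv).choose_spec.2 w h
  · rintro ⟨hv, rfl⟩
    simp only [toM, hv, dite_true]
    exact (hM hv).choose_spec.1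

theorem toM_not {M : G.Subgraph} (hM : M.IsMatching) {v : V} (hv : v ∉ M.verts) :
    toM M hM v = v := by
  classical
  simp [toM, hv]

theorem toM_fix {M : G.Subgraph} (hM : M.IsMatching) {v : V} :
    toM M hM v = v ↔ v ∉ M.verts := by
  refine ⟨fun h hv => ?_, toM_not hM⟩
  have := (toM_adj hM).2 ⟨hv, rfl⟩
  rw [h] at this
  exact (M.adj_sub this).ne rfl

theorem toM_mt {M : G.Subgraph} (hM : M.IsMatching) : Mt G (toM M hM) := by
  constructor
  · intro v
    by_cases hv : v ∈ M.verts
    · have h1 := ((toM_adj hM).2 ⟨hv, rfl⟩).symm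
      exact ((toM_adj hM).1 h1).2.symm
    · rw [toM_not hM hv, toM_not hM hv]
  · intro v hv
    rw [Ne, toM_fix, not_not] at hv
    exact M.adj_sub ((toM_adj hM).2 ⟨hv, rfl⟩)

/-- the subgraph of an involution -/
def ofM {m : V → V} (hm : Mt G m) : G.Subgraph where
  verts := {v | m v ≠ v}
  Adj v w := m v ≠ v ∧ w = m v
  adj_sub := by
    rintro v w ⟨h, rfl⟩
    exact hm.adj v h
  edge_vert := by
    rintro v w ⟨h, rfl⟩
    exact h
  symm := ⟨by
    rintro v w ⟨h, rfl⟩
    rw [hm.inv]
    exact ⟨h.symm, rfl⟩⟩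

theorem ofM_matching {m : V → V} (hm : Mt G m) : (ofM hm).IsMatching := by
  intro v hv
  exact ⟨m v, ⟨hv, rfl⟩, fun w hw => hw.2⟩

theorem ofM_toM {m : V → V} (hm : Mt G m) : toM (ofM hm) (ofM_matching hm) = m := by
  funext v
  by_cases hv : m v = v
  · rw [hv]
    exact toM_not _ (by simpa [ofM] using hv)
  · have : (ofM hm).Adj v (m v) := ⟨hv, rfl⟩
    exact ((toM_adj (ofM_matching hm)).1 this).2.symm

theorem two_edges {M : G.Subgraph} (hM : M.IsMatching) :
    2 * M.edgeSet.ncard + (ex (toM M hM)).card = Fintype.card V := by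
  classical
  have h := count_edges M.spanningCoe (ex (toM M hM))ᶜ (toM M hM) (by
    intro v w
    rw [Subgraph.spanningCoe_adj, toM_adj hM, mem_compl, mem_ex, toM_fix, not_not])
  rw [Subgraph.edgeSet_spanningCoe] at h
  rw [h, card_compl]
  have := (ex (toM M hM)).card_le_univ
  omega

theorem mm_toM {M : G.Subgraph} (hM : IsMaxMatching M) : MM G (toM M hM.1) := by
  refine ⟨toM_mt hM.1, fun m' hm' => ?_⟩
  have h1 := hM.2 _ (ofM_matching hm')
  have h2 := two_edges hM.1
  have h3 := two_edges (ofM_matching hm')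
  rw [ofM_toM] at h3
  omega

theorem max_ofM {m : V → V} (hm : MM G m) : IsMaxMatching (ofM hm.toMt) := by
  refine ⟨ofM_matching _, fun M' hM' => ?_⟩
  have h1 := hm.max _ (toM_mt hM')
  have h2 := two_edges hM'
  have h3 := two_edges (ofM_matching hm.toMt)
  rw [ofM_toM] at h3
  omega

/-! ### rotation of odd cycles -/

/-- `m` is a maximum matching which misses the vertex `b` of `C` and matches the other vertices of
`C` along `C` -/
def KK (C : G.Subgraph) (m : V → V) (b : V) : Prop :=
  MM G m ∧ b ∈ C.verts ∧ m b = b ∧ ∀ x ∈ C.verts, x ≠ b → C.Adj x (m x)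

theorem kk_rot {C : G.Subgraph} (hC : IsOddCyc G C) {m : V → V} {b : V} (h : KK C m b) :
    ∀ v ∈ C.verts, ∃ m', KK C m' v ∧ ∀ x ∉ C.verts, m' x = m x := by
  classical
  obtain ⟨u, p, hp, hodd, rfl⟩ := hC
  set C := p.toSubgraph with hCdef
  set n := p.length with hn
  have hn3 : 3 ≤ n := hp.three_le_length
  -- one step
  have step : ∀ v w z, (∃ m', KK C m' v ∧ ∀ x ∉ C.verts, m' x = m x) → C.Adj v w → C.Adj w z →
      z ≠ v → (∃ m', KK C m' z ∧ ∀ x ∉ C.verts, m' x = m x) := by
    rintro v w z ⟨m', ⟨hm', hv, hmv, hx⟩, ho⟩ hvw hwz hzv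
    have hwC : w ∈ C.verts := C.edge_vert hwz
    have hzC : z ∈ C.verts := C.edge_vert hwz.symm
    have hwv : w ≠ v := (C.adj_sub hvw).ne'
    obtain ⟨h1, h2, h3⟩ := mm_slide hm' hmv (C.adj_sub hvw)
    have h4 := hx w hwC hwv
    have hz : z = m' w := by
      by_contra hne
      have h5 : (C.neighborSet w).ncard = 2 :=
        hp.ncard_neighborSet_toSubgraph_eq_two (by simpa [hCdef] using hwC)
      have h6 : ({v, m' w, z} : Finset V).card = 3 := by
        rw [card_insert_of_notMem, card_insert_of_notMem, card_singleton]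
        · simpa using fun h => hne h.symm
        · simp [h2.symm, hzv.symm]
      have h7 : ((({v, m' w, z} : Finset V) : Set V)) ⊆ C.neighborSet w := by
        intro y hy
        simp only [coe_insert, coe_singleton, Set.mem_insert_iff, Set.mem_singleton_iff] at hy
        rcases hy with rfl | rfl | rfl
        · exact hvw.symm
        · exact h4
        · exact hwz
      have h8 := Set.ncard_le_ncard h7
      rw [Set.ncard_coe_finset, h5, h6] at h8
      omega
    subst hz
    refine ⟨slide m' v w, ⟨h3, hzC, slide_mu h1 h2, ?_⟩, ?_⟩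
    · intro x hxC hxz
      by_cases hxv : x = v
      · subst hxv; rw [slide_v]; exact hvw
      by_cases hxw : x = w
      · subst hxw; rw [slide_u _ hwv]; exact hvw.symm
      rw [slide_of hxv hxw hxz]
      exact hx x hxC hxv
    · intro x hxC
      rw [slide_of ?_ ?_ ?_, ho x hxC]
      · rintro rfl; exact hxC hv
      · rintro rfl; exact hxC hwC
      · rintro rfl; exact hxC hzC
  set c : ℕ → V := fun i => p.getVert (i % n) with hc
  have cadj : ∀ i, C.Adj (c i) (c (i + 1)) := by
    intro i
    have hlt : i % n < n := Nat.mod_lt _ (by omega)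
    by_cases h : i % n + 1 < n
    · have e : (i + 1) % n = i % n + 1 := by
        rw [Nat.add_mod, Nat.mod_eq_of_lt (show 1 < n by omega), Nat.mod_eq_of_lt h]
      simp only [hc, e]
      exact p.toSubgraph_adj_getVert hlt
    · have e0 : i % n + 1 = n := by omega
      have e : (i + 1) % n = 0 := by
        rw [Nat.add_mod, Nat.mod_eq_of_lt (show 1 < n by omega), e0, Nat.mod_self]
      have := p.toSubgraph_adj_getVert hlt
      rw [e0] at this
      simp only [hc, e]
      rw [Walk.getVert_zero]
      rw [hn, Walk.getVert_length] at this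
      exact this
  have cne : ∀ i, c (i + 2) ≠ c i := by
    intro i h
    have h1 : i % n < n := Nat.mod_lt _ (by omega)
    have h2 : (i + 2) % n < n := Nat.mod_lt _ (by omega)
    have := hp.getVert_injOn' (by rw [Set.mem_ofPred_eq]; omega)
      (by rw [Set.mem_ofPred_eq]; omega) h
    have h3 : (i + 2) ≡ i + 0 [MOD n] := this
    have h4 : 2 ≡ 0 [MOD n] := Nat.ModEq.add_left_cancel' i h3
    rw [Nat.modEq_zero_iff_dvd] at h4
    have := Nat.le_of_dvd (by omega) h4
    omega
  have csurj : ∀ v ∈ C.verts, ∃ i, c i = v := by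
    intro v hv
    rw [hCdef, Walk.mem_verts_toSubgraph, Walk.mem_support_iff_exists_getVert] at hv
    obtain ⟨i, hi, hil⟩ := hv
    by_cases hin : i = n
    · refine ⟨0, ?_⟩
      simp only [hc, Nat.zero_mod, Walk.getVert_zero]
      rw [← hi, hin, hn, Walk.getVert_length]
    · exact ⟨i, by simp only [hc]; rw [Nat.mod_eq_of_lt (by omega), hi]⟩
  have two : ∀ i, (∃ m', KK C m' (c i) ∧ ∀ x ∉ C.verts, m' x = m x) →
      (∃ m', KK C m' (c (i + 2)) ∧ ∀ x ∉ C.verts, m' x = m x) :=
    fun i h => step _ (c (i + 1)) _ h (cadj i) (cadj (i + 1)) (cne i)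
  obtain ⟨i0, hi0⟩ := csurj b h.2.1
  have all : ∀ k, (∃ m', KK C m' (c (i0 + 2 * k)) ∧ ∀ x ∉ C.verts, m' x = m x) := by
    intro k
    induction k with
    | zero => exact ⟨m, by simpa [hi0] using h, fun _ _ => rfl⟩
    | succ k ih =>
      have := two _ ih
      rw [show i0 + 2 * (k + 1) = i0 + 2 * k + 2 by ring]
      exact this
  intro v hv
  obtain ⟨j, rfl⟩ := csurj v hv
  obtain ⟨t, ht⟩ := hodd
  have key : c (i0 + 2 * ((j + 2 * t * i0) * (t + 1))) = c j := by
    simp only [hc]
    congr 1
    have : i0 + 2 * ((j + 2 * t * i0) * (t + 1)) = j + n * (i0 + j + 2 * t * i0) := by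
      rw [ht]; ring
    rw [this, Nat.add_mul_mod_self_left]
  rw [← key]
  exact all _

end Pool.Agent.Helper79K9.RD
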