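import Pool.Agent.Helper79K9.RD.Conv

set_option autoImplicit false
set_option linter.unusedSectionVars false
set_option linter.unusedSimpArgs false

namespace Pool.Agent.Helper79K9.RD

open SimpleGraph Finset

variable {V : Type*} [Fintype V] [DecidableEq V] {G : SimpleGraph V}

/-- the edges of an alternating path alternate -/
theorem Alt.idx {m : V → V} {S : Set V} {b d : V} {l : List V} (h : Alt G m S b d l)
    (hi : ∀ x, m (m x) = x) (hb : m b = b) :
    ∀ (i : ℕ) (hil : i + 1 < l.length), m l[i] = l[i + 1] ↔ Even i := by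
  induction h with
  | nil => intro i hil; simp at hil
  | @step d l a h hda ha haS hn hma ih =>
    have hml : m a ∉ l := h.ma hi hb ha
    intro i hil
    match i, hil with
    | 0, hil => simp [hi]
    | 1, hil =>
      simp only [List.getElem_cons_succ, List.getElem_cons_zero]
      constructor
      · intro e
        exfalso
        apply hml
        rw [e]
        exact List.getElem_mem _
      · intro h; exact absurd h (by decide)
    | i + 2, hil =>
      simp only [List.getElem_cons_succ]
      rw [ih i (by simp only [List.length_cons] at hil; omega)]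
      simp [Nat.even_add]

/-- a list with alternating edges and exposed last vertex is an alternating path -/
theorem alt_of_list {m : V → V} (hm : Mt G m) : ∀ (n : ℕ) (l : List V) (hl : l ≠ []),
    l.length = 2 * n + 1 → l.Nodup → l.IsChain G.Adj →
    (∀ (i : ℕ) (_ : i + 2 < l.length), m l[i] = l[i + 1] ↔ ¬ m l[i + 1] = l[i + 2]) →
    m (l.getLast hl) = l.getLast hl →
    Alt G m ∅ (l.getLast hl) (l.head hl) l := by
  intro n
  induction n with
  | zero =>
    intro l hl hlen _ _ _ _
    match l, hlen with
    | [x], _ => simpa using Alt.nil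
  | succ n ih =>
    intro l hl hlen hnd hch halt hlast
    match l, hlen with
    | x :: y :: l', hlen =>
      have hlen' : l'.length = 2 * n + 1 := by simpa [mul_add] using hlen
      have hl' : l' ≠ [] := by rintro rfl; simp at hlen'
      rw [List.nodup_cons, List.nodup_cons] at hnd
      have hlast' : (x :: y :: l').getLast hl = l'.getLast hl' := by
        rw [List.getLast_cons (by simp), List.getLast_cons hl']
      rw [hlast'] at hlast ⊢
      have hch' : l'.IsChain G.Adj := hch.tail.tail
      have hA := ih l' hl' hlen' hnd.2.2 hch' (by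
        intro i hil
        have := halt (i + 2) (by simp only [List.length_cons]; omega)
        simpa using this) hlast
      obtain ⟨t, ht⟩ := hA.head
      have hyz : ¬ m y = l'.head hl' := by
        intro e
        have e' : m (l'.head hl') = y := by rw [← e, hm.inv]
        have := hA.cl hm.inv hlast (l'.head hl') hA.mem
        rw [e'] at this
        exact hnd.2.1 this
      have h0 := halt 0 (by simp only [List.length_cons]; omega)
      have hxy : m x = y := by
        have e1 : (x :: y :: l')[0 + 2]'(by simp only [List.length_cons]; omega) = l'.head hl' := by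
          simp [List.head_eq_getElem]
        have h0' := h0.2 (by
          simp only [e1]
          simpa using hyz)
        simpa using h0'
      have hmy : m y = x := by rw [← hxy, hm.inv]
      have hadj : G.Adj (l'.head hl') y := by
        have := hch.tail
        simp only [List.tail_cons] at this
        rw [List.isChain_cons] at this
        refine (this.1 _ ?_).symm
        rw [List.head?_eq_some_head hl']
        simp
      have hyx : x ≠ y := by
        intro e; apply hnd.1; simp [e]
      have := Alt.step hA hadj hnd.2.1 (by simp) (by rw [hmy]; exact hyx) (by simp)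
      rw [hmy] at this
      simpa using this

theorem cyc_of_odd {C : G.Subgraph} (h : IsOddCyc G C) : IsCyc G C := by
  obtain ⟨u, p, h1, _, h2⟩ := h
  exact ⟨u, p, h1, h2⟩

theorem cyc_card {C : G.Subgraph} {u : V} {p : G.Walk u u} (hp : p.IsCycle)
    (hC : C = p.toSubgraph) : C.verts.ncard = p.length := by
  subst hC
  have h1 : p.toSubgraph.verts = ((p.support.tail.toFinset : Finset V) : Set V) := by
    ext x
    rw [Walk.mem_verts_toSubgraph]
    simp only [List.coe_toFinset, Set.mem_ofPred_eq]
    constructor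
    · intro hx
      rw [Walk.mem_support_iff] at hx
      rcases hx with rfl | hx
      · exact Walk.end_mem_tail_support hp.not_nil
      · exact hx
    · intro hx
      exact List.mem_of_mem_tail hx
  rw [h1, Set.ncard_coe_finset, List.toFinset_card_of_nodup hp.support_nodup]
  simp

theorem blossom_odd {M C : G.Subgraph} (h : IsBlossom M C) : IsOddCyc G C := by
  obtain ⟨⟨u, p, hp, hC⟩, t, ht, _⟩ := h
  refine ⟨u, p, hp, ?_, hC⟩
  rw [← cyc_card hp hC, ht]
  simp

/-- the edges of a blossom in the matching cover all vertices but the base -/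
theorem blossom_cover {M C : G.Subgraph} (hM : M.IsMatching) (h : IsBlossom M C) {b : V}
    (hb : IsBase M C b) : ∀ x ∈ C.verts, x ≠ b → C.Adj x (toM M hM x) := by
  classical
  obtain ⟨_, t, ht, htt⟩ := h
  set T : Finset V := univ.filter fun x => C.Adj x (toM M hM x) ∧ x ∈ M.verts with hT
  have h1 := count_edges ((C ⊓ M).spanningCoe) T (toM M hM) (by
    intro v w
    rw [Subgraph.spanningCoe_adj, Subgraph.inf_adj, toM_adj hM]
    simp only [hT, mem_filter, mem_univ, true_and]
    constructor
    · rintro ⟨h1, h2, rfl⟩; exact ⟨⟨h1, h2⟩, rfl⟩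
    · rintro ⟨⟨h1, h2⟩, rfl⟩; exact ⟨h1, h2, rfl⟩)
  rw [Subgraph.edgeSet_spanningCoe, Subgraph.edgeSet_inf, htt] at h1
  have h2 : T ⊆ C.verts.toFinset.erase b := by
    intro x hx
    simp only [hT, mem_filter, mem_univ, true_and] at hx
    rw [mem_erase, Set.mem_toFinset]
    refine ⟨?_, C.edge_vert hx.1⟩
    rintro rfl
    refine hb.2 s(x, toM M hM x) ⟨?_, ?_⟩ (by simp)
    · exact hx.1
    · exact (toM_adj hM).2 ⟨hx.2, rfl⟩
  have h3 : (C.verts.toFinset.erase b).card = 2 * t := by
    rw [card_erase_of_mem (by simpa using hb.1)]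
    rw [Set.ncard_eq_toFinset_card'] at ht
    omega
  have h4 := eq_of_subset_of_card_le h2 (by omega)
  intro x hx hxb
  have : x ∈ C.verts.toFinset.erase b := by simp [hx, hxb]
  rw [← h4] at this
  simp only [hT, mem_filter, mem_univ, true_and] at this
  exact this.1

/-- from official flowers to alternating paths -/
theorem flower_alt {M C : G.Subgraph} {b v : V} {P : G.Walk b v} (hM : IsMaxMatching M)
    (hC : IsBlossom M C) (hb : IsBase M C b) (hP : IsStem M C P) :
    ∃ m, KK C m b ∧ Alt G m C.verts b v P.support.reverse := by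
  obtain ⟨hpath, heven, halt, hv, hmeet⟩ := hP
  have hmt := toM_mt hM.1
  set m0 := toM M hM.1 with hm0
  have hlast : P.support.getLast P.support_ne_nil = v := P.getLast_support
  have hhead : P.support.head P.support_ne_nil = b := P.head_support
  have hmv : m0 v = v := toM_not hM.1 hv
  have hadjiff : ∀ i, i < P.length → (M.Adj (P.getVert i) (P.getVert (i + 1)) ↔
      m0 (P.getVert i) = P.getVert (i + 1)) := by
    intro i hi
    rw [toM_adj hM.1]
    constructor
    · rintro ⟨_, h⟩; exact h.symm
    · intro h
      refine ⟨?_, h.symm⟩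
      by_contra hn
      rw [hm0, toM_not hM.1 hn] at h
      exact (P.adj_getVert_succ hi).ne h
  have h1 : Alt G m0 ∅ v b P.support := by
    have := alt_of_list hmt (P.length / 2) P.support P.support_ne_nil (by
      rw [Walk.length_support]; obtain ⟨k, hk⟩ := heven; omega) hpath.support_nodup
      P.isChain_adj_support (by
        intro i hi
        rw [Walk.length_support] at hi
        simp only [Walk.support_getElem_eq_getVert]
        rw [← hadjiff i (by omega), ← hadjiff (i + 1) (by omega)]
        exact halt i (by omega)) (by rw [hlast]; exact hmv)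
    rw [hlast, hhead] at this
    exact this
  obtain ⟨m, hm, hmb, hA, ho⟩ := h1.shift (mm_toM hM) hmv
  refine ⟨m, ⟨hm, hb.1, hmb, ?_⟩, hA.toS hm.inv hmb ?_⟩
  · intro x hx hxb
    have : x ∉ P.support := fun h => hxb (hmeet x h hx)
    rw [ho x this]
    exact blossom_cover hM.1 hC hb x hx hxb
  · intro x hx hxC
    exact hmeet x (by simpa using hx) hxC

/-- from alternating paths to official flowers -/
theorem alt_flower {C : G.Subgraph} (hC : IsOddCyc G C) {m : V → V} {b v : V} {l : List V}
    (hK : KK C m b) (hA : Alt G m C.verts b v l) : ∀ x, x ∈ C.verts ∨ x ∈ l → x ∈ reach C := by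
  classical
  obtain ⟨hm, hbC, hmb, hCm⟩ := hK
  obtain ⟨m', hm', hmv, hA', ho⟩ := hA.shift hm hmb
  have hne : l.reverse ≠ [] := hA'.ne
  have hhead : l.reverse.head hne = b := by
    obtain ⟨t, ht⟩ := hA'.head
    simp [ht]
  have hlast : l.reverse.getLast hne = v := hA'.last
  have hchain := hA'.chain hm'.toMt
  have hnd := hA'.nodup hm'.inv hmv
  let P0 := Walk.ofSupport l.reverse hne hchain
  let P : G.Walk b v := P0.copy hhead hlast
  have hsup : P.support = l.reverse := by
    simp only [P, P0, Walk.support_copy, Walk.support_ofSupport]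
  have hlen : P.length = l.reverse.length - 1 := by
    have := P.length_support
    rw [hsup] at this
    omega
  have hodd := hA'.odd
  have hget : ∀ (i : ℕ) (h : i < l.reverse.length), P.getVert i = l.reverse[i] := by
    intro i h
    have : P.getVert i = P.support[i]'(by rw [hsup]; exact h) :=
      (Walk.support_getElem_eq_getVert ..).symm
    rw [this]
    simp only [hsup]
  have hadj : ∀ {x y : V}, (ofM hm'.toMt).Adj x y ↔ m' x ≠ x ∧ y = m' x := Iff.rfl
  have hidx := hA'.idx hm'.inv hmv
  have hadj2 : ∀ i, i < P.length →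
      ((ofM hm'.toMt).Adj (P.getVert i) (P.getVert (i + 1)) ↔ Even i) := by
    intro i hi
    rw [hadj, hget i (by omega), hget (i + 1) (by omega), ← hidx i (by omega)]
    constructor
    · rintro ⟨_, h⟩; exact h.symm
    · intro h
      refine ⟨?_, h.symm⟩
      rw [h]
      have := P.adj_getVert_succ hi
      rw [hget i (by omega), hget (i + 1) (by omega)] at this
      exact this.ne'
  -- vertices of the cycle
  have hout : ∀ x ∈ C.verts, x ≠ b → m' x = m x := fun x hx hxb =>
    ho x (fun h => hxb (hA.outS x h hx))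
  have hcov : ∀ x ∈ C.verts, x ≠ b → C.Adj x (m' x) ∧ m' x ≠ x := by
    intro x hx hxb
    have := hCm x hx hxb
    rw [hout x hx hxb]
    exact ⟨this, (C.adj_sub this).ne'⟩
  have hbase : ∀ w, C.Adj b w → ¬ (ofM hm'.toMt).Adj b w := by
    intro w hbw h
    have hw : w = m' b := h.2
    have hwC : w ∈ C.verts := C.edge_vert hbw.symm
    have hwb : w ≠ b := (C.adj_sub hbw).ne'
    have h1 : m' w = b := by rw [hw, hm'.inv]
    rw [hout w hwC hwb] at h1
    have h2 : m b = w := by rw [← h1, hm.inv]
    exact hwb (by rw [← h2, hmb])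
  obtain ⟨u, p, hp, hpo, hCp⟩ := id hC
  obtain ⟨t, ht⟩ := id hpo
  have hcard : C.verts.ncard = 2 * t + 1 := by rw [cyc_card hp hCp, ht]
  intro x hx
  refine ⟨ofM hm'.toMt, b, v, P, max_ofM hm', ⟨cyc_of_odd hC, t, hcard, ?_⟩, ⟨hbC, ?_⟩,
    ⟨?_, ?_, ?_, ?_, ?_⟩, ?_⟩
  · -- the number of edges
    have h1 := count_edges ((C ⊓ ofM hm'.toMt).spanningCoe) (C.verts.toFinset.erase b) m' (by
      intro y w
      rw [Subgraph.spanningCoe_adj, Subgraph.inf_adj, hadj, mem_erase, Set.mem_toFinset]
      constructor
      · rintro ⟨h1, h2, rfl⟩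
        refine ⟨⟨?_, C.edge_vert h1⟩, rfl⟩
        rintro rfl
        exact hbase _ h1 ⟨h2, rfl⟩
      · rintro ⟨⟨h1, h2⟩, rfl⟩
        have := hcov y h2 h1
        exact ⟨this.1, this.2, rfl⟩)
    rw [Subgraph.edgeSet_spanningCoe, Subgraph.edgeSet_inf,
      card_erase_of_mem (by simpa using hbC)] at h1
    rw [Set.ncard_eq_toFinset_card'] at hcard
    omega
  · rintro e ⟨he1, he2⟩ hbe
    obtain ⟨w, rfl⟩ := Sym2.mem_iff_exists.1 hbe
    exact hbase w he1 he2
  · rw [Walk.isPath_def, hsup]; exact hnd
  · rw [hlen]
    obtain ⟨k, hk⟩ := hodd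
    rw [hk]; simp
  · intro i hi
    rw [hadj2 i (by omega), hadj2 (i + 1) (by omega), Nat.even_add_one, not_not]
  · simp [ofM, hmv]
  · intro y hy hyC
    rw [hsup, List.mem_reverse] at hy
    exact hA.outS y hy hyC
  · rw [hsup, List.mem_reverse]; exact hx

theorem kk_cl {C : G.Subgraph} {m : V → V} {b : V} (h : KK C m b) : ∀ x ∈ C.verts,
    m x ∈ C.verts := by
  intro x hx
  by_cases hxb : x = b
  · rw [hxb, h.2.2.1]; exact h.2.1
  · exact C.edge_vert (h.2.2.2 x hx hxb).symm

theorem rh_reach {C : G.Subgraph} (hC : IsOddCyc G C) (hne : (reach C).Nonempty) {x : V}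
    (hx : Rh G C.verts (KK C) x) : x ∈ reach C := by
  rcases hx with hx | ⟨m, b, l, hK, hA⟩ | ⟨m, b, d, l, hK, hA, hda, hal, haS⟩
  · obtain ⟨_, M, b, v, P, h1, h2, h3, h4, _⟩ := hne
    exact ⟨M, b, v, P, h1, h2, h3, h4, Or.inl hx⟩
  · exact alt_flower hC hK hA x (Or.inr hA.mem)
  · obtain ⟨m', h1, h2, h3, h4⟩ := hA.shift hK.1 hK.2.2.1
    have hn := (mm_slide h1 h2 hda).1
    rw [h4 x hal] at hn
    have : m x ∉ C.verts := fun h => haS (by simpa [hK.1.inv] using kk_cl hK _ h)
    exact alt_flower hC hK (Alt.step hA hda hal haS hn this) x (Or.inr (by simp))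

theorem reach_rh {C : G.Subgraph} {x : V} (hx : x ∈ reach C) : Rh G C.verts (KK C) x := by
  obtain ⟨M, b, v, P, h1, h2, h3, h4, h5⟩ := hx
  obtain ⟨m, hK, hA⟩ := flower_alt h1 h2 h3 h4
  rcases h5 with h5 | h5
  · exact Or.inl h5
  · rcases hA.split x (by simpa using h5) with ⟨l', h6, _⟩ | ⟨t, r, d', _, _, h8, h9, h10, h11⟩
    · exact Or.inr (Or.inl ⟨m, b, l', hK, h6⟩)
    · exact Or.inr (Or.inr ⟨m, b, d', r, hK, h8, h9, h10, h11⟩)

/-- odd closed chains give odd cycles -/
theorem oc_cycle {L : List V} (h : OC G L) : ∃ C : G.Subgraph, IsOddCyc G C ∧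
    ∀ x, x ∈ C.verts ↔ x ∈ L := by
  obtain ⟨hne, hnd, hch, hcl, hodd, hlen⟩ := h
  let P := Walk.ofSupport L hne hch
  have hsup : P.support = L := Walk.support_ofSupport hne hch
  have hplen : P.length + 1 = L.length := by
    rw [← Walk.length_support]
    exact congrArg List.length hsup
  have hP : P.IsPath := by rw [Walk.isPath_def, hsup]; exact hnd
  let c : G.Walk (L.getLast hne) (L.getLast hne) := Walk.cons hcl P
  have hc : c.IsCycle := by
    rw [Walk.cons_isCycle_iff]
    refine ⟨hP, fun he => ?_⟩
    have hl2 : 2 ≤ P.length := by omega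
    -- the closing edge joins the ends of a path with at least two edges
    rw [Walk.mk_mem_edges_iff_exists] at he
    obtain ⟨i, hi, h⟩ := he
    have hinj := hP.getVert_injOn
    have e0 : P.getVert 0 = L.head hne := P.getVert_zero
    have e1 : P.getVert P.length = L.getLast hne := P.getVert_length
    rw [Sym2.eq_iff] at h
    rcases h with ⟨h1, h2⟩ | ⟨h1, h2⟩
    · have := hinj (by rw [Set.mem_ofPred_eq]; omega) (by rw [Set.mem_ofPred_eq])
        (h1.trans e1.symm)
      omega
    · have a := hinj (by rw [Set.mem_ofPred_eq]; omega) (by rw [Set.mem_ofPred_eq]; omega)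
        (h1.trans e0.symm)
      have b := hinj (by rw [Set.mem_ofPred_eq]; omega) (by rw [Set.mem_ofPred_eq])
        (h2.trans e1.symm)
      omega
  refine ⟨c.toSubgraph, ⟨_, c, hc, ?_, rfl⟩, ?_⟩
  · simp only [c, Walk.length_cons]
    rw [hplen]; exact hodd
  · intro x
    rw [Walk.mem_verts_toSubgraph]
    simp only [c, Walk.support_cons, hsup, List.mem_cons]
    constructor
    · rintro (rfl | h)
      · exact List.getLast_mem hne
      · exact h
    · exact Or.inr

theorem sys (h : RDisjoint G) {C : G.Subgraph} (hC : IsOddCyc G C) :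
    Sys G C.verts (KK C) where
  mm := fun h => h.1
  mem := fun h => h.2.1
  exp := fun h => h.2.2.1
  cl := fun h => kk_cl h
  rot := fun h => kk_rot hC h
  loc := by
    intro m b m' h h1 h2
    refine ⟨h1, h.2.1, by rw [h2 b h.2.1]; exact h.2.2.1, fun x hx hxb => ?_⟩
    rw [h2 x hx]
    exact h.2.2.2 x hx hxb
  nonempty := by
    obtain ⟨_, M, b, v, P, h1, h2, h3, h4, _⟩ := h.nonempty C hC
    obtain ⟨m, hK, _⟩ := flower_alt h1 h2 h3 h4
    exact ⟨m, b, hK⟩
  eng := by
    rintro L hL ⟨x, hx, hxR⟩
    obtain ⟨C', hC', hv⟩ := oc_cycle hL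
    have h1 : x ∈ reach C := rh_reach hC (h.nonempty C hC) hxR
    have h2 : x ∈ reach C' := rh_reach hC' (h.nonempty C' hC') (Or.inl ((hv x).2 hx))
    have h3 : C = C' := by
      by_contra hne
      exact Set.disjoint_left.1 (h.disjoint C C' hC hC' hne) h1 h2
    intro y hy
    rw [h3]
    exact (hv y).2 hy

/-- a permutation which maps every vertex to a neighbour preserves the reach sets -/
theorem perm_reach (h : RDisjoint G) {C : G.Subgraph} (hC : IsOddCyc G C) (π : Equiv.Perm V)
    (hπ : ∀ v, G.Adj v (π v)) {x : V} (hx : x ∈ reach C) : π x ∈ reach C :=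
  rh_reach hC (h.nonempty C hC) ((sys h hC).perm π hπ x (reach_rh hx))

end Pool.Agent.Helper79K9.RD
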