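import Mathlib

set_option autoImplicit false
set_option linter.unusedSectionVars false
set_option linter.unusedSimpArgs false

/-!
# Maximum matchings as involutions

Helper file for the determinant of R-disjoint graphs.
-/

namespace Pool.Agent.Helper79K9.RD

open SimpleGraph Finset

variable {V : Type*} [Fintype V] [DecidableEq V] {G : SimpleGraph V}

/-- a matching, given by the involution which maps every covered vertex to its partner and fixes
the other vertices -/
structure Mt (G : SimpleGraph V) (m : V → V) : Prop where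
  inv : ∀ v, m (m v) = v
  adj : ∀ v, m v ≠ v → G.Adj v (m v)

/-- the exposed vertices -/
def ex (m : V → V) : Finset V := univ.filter fun v => m v = v

theorem mem_ex {m : V → V} {v : V} : v ∈ ex m ↔ m v = v := by simp [ex]

/-- maximum matchings -/
structure MM (G : SimpleGraph V) (m : V → V) : Prop extends Mt G m where
  max : ∀ m', Mt G m' → (ex m).card ≤ (ex m').card

/-- `m₁` on `Q` and `m₂` outside `Q` -/
def mix (Q : Finset V) (m₁ m₂ : V → V) (x : V) : V := if x ∈ Q then m₁ x else m₂ x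

theorem mt_mix {Q : Finset V} {m₁ m₂ : V → V} (h₁ : Mt G m₁) (h₂ : Mt G m₂)
    (c₁ : ∀ x ∈ Q, m₁ x ∈ Q) (c₂ : ∀ x ∈ Q, m₂ x ∈ Q) : Mt G (mix Q m₁ m₂) := by
  constructor
  · intro x
    by_cases hx : x ∈ Q
    · simp [mix, hx, c₁ x hx, h₁.inv]
    · have : m₂ x ∉ Q := fun h => hx (by simpa [h₂.inv] using c₂ _ h)
      simp [mix, hx, this, h₂.inv]
  · intro x
    by_cases hx : x ∈ Q
    · simpa [mix, hx] using h₁.adj x
    · simpa [mix, hx] using h₂.adj x

theorem card_ex_mix (Q : Finset V) (m₁ m₂ : V → V) :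
    (ex (mix Q m₁ m₂)).card + (ex (mix Q m₂ m₁)).card = (ex m₁).card + (ex m₂).card := by
  have e : ∀ m₁ m₂ : V → V, (ex (mix Q m₁ m₂)).card =
      ((ex m₁).filter (· ∈ Q)).card + ((ex m₂).filter (· ∉ Q)).card := by
    intro m₁ m₂
    rw [← card_union_of_disjoint]
    · congr 1
      ext x
      simp only [mem_union, mem_filter, mem_ex, mix]
      by_cases hx : x ∈ Q <;> simp [hx]
    · rw [Finset.disjoint_left]
      intro x hx hx'
      simp only [mem_filter] at hx hx'
      exact hx'.2 hx.2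
  have s : ∀ m : V → V, ((ex m).filter (· ∈ Q)).card + ((ex m).filter (· ∉ Q)).card =
      (ex m).card := fun m => card_filter_add_card_filter_not _
  rw [e, e, ← s m₁, ← s m₂]
  ring

/-- mixtures of maximum matchings are maximum -/
theorem mm_mix {Q : Finset V} {m₁ m₂ : V → V} (h₁ : MM G m₁) (h₂ : MM G m₂)
    (c₁ : ∀ x ∈ Q, m₁ x ∈ Q) (c₂ : ∀ x ∈ Q, m₂ x ∈ Q) : MM G (mix Q m₁ m₂) := by
  refine ⟨mt_mix h₁.toMt h₂.toMt c₁ c₂, fun m' hm' => ?_⟩
  have e := card_ex_mix Q m₁ m₂
  have a := h₁.max _ (mt_mix h₂.toMt h₁.toMt c₂ c₁)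
  have b := h₂.max _ hm'
  omega

/-- replace the edge `u (m u)` by the edge `v u` -/
def slide (m : V → V) (v u : V) (x : V) : V :=
  if x = v then u else if x = u then v else if x = m u then x else m x

theorem mt_slide {m : V → V} (h : Mt G m) {v u : V} (hv : m v = v) (hu : G.Adj v u) :
    Mt G (slide m v u) := by
  have hne : v ≠ u := hu.ne
  constructor
  · intro x
    unfold slide
    by_cases h1 : x = v
    · subst h1; simp [hne.symm]
    by_cases h2 : x = u
    · subst h2; simp [h1]
    by_cases h3 : x = m u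
    · simp [h1, h2, h3]
      simp [← h3, h1, h2]
    · have h4 : m x ≠ v := fun e => h1 (by rw [← h.inv x, e, hv])
      have h5 : m x ≠ u := fun e => h3 (by rw [← e, h.inv])
      have h6 : m x ≠ m u := fun e => h2 (by rw [← h.inv x, e, h.inv])
      simp [h1, h2, h3, h4, h5, h6, h.inv]
  · intro x
    unfold slide
    by_cases h1 : x = v
    · subst h1; simpa using fun _ => hu
    by_cases h2 : x = u
    · subst h2; simpa [h1] using fun _ => hu.symm
    by_cases h3 : x = m u
    · simp [h1, h2, h3]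
      intro h; exfalso; revert h; simp [← h3, h1, h2]
    · simpa [h1, h2, h3] using h.adj x

theorem slide_v (m : V → V) (v u : V) : slide m v u v = u := by simp [slide]

theorem slide_u (m : V → V) {v u : V} (h : u ≠ v) : slide m v u u = v := by simp [slide, h]

theorem slide_mu {m : V → V} {v u : V} (h1 : m u ≠ u) (h2 : m u ≠ v) :
    slide m v u (m u) = m u := by simp [slide, h1, h2]

theorem slide_of {m : V → V} {v u x : V} (h1 : x ≠ v) (h2 : x ≠ u) (h3 : x ≠ m u) :
    slide m v u x = m x := by simp [slide, h1, h2, h3]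

/-- a neighbour of an exposed vertex is covered, and the edge can be exchanged -/
theorem mm_slide {m : V → V} (h : MM G m) {v u : V} (hv : m v = v) (hu : G.Adj v u) :
    m u ≠ u ∧ m u ≠ v ∧ MM G (slide m v u) := by
  have hne : u ≠ v := hu.ne'
  have hmv : m u ≠ v := fun e => hne (by rw [← h.inv u, e, hv])
  have hmu : m u ≠ u := by
    intro e
    have h1 : ex (slide m v u) ⊆ ((ex m).erase v).erase u := by
      intro x hx
      rw [mem_ex] at hx
      have a : x ≠ v := by rintro rfl; rw [slide_v] at hx; exact hne hx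
      have b : x ≠ u := by rintro rfl; rw [slide_u m hne] at hx; exact hne hx.symm
      rw [slide_of a b (by rw [e]; exact b)] at hx
      simp [a, b, mem_ex, hx]
    have h2 := card_le_card h1
    have h3 := h.max _ (mt_slide h.toMt hv hu)
    rw [card_erase_of_mem (by simp [mem_ex, e, hne]), card_erase_of_mem (by simp [mem_ex, hv])] at h2
    have h4 : 1 ≤ (ex m).card := card_pos.2 ⟨v, mem_ex.2 hv⟩
    omega
  refine ⟨hmu, hmv, mt_slide h.toMt hv hu, fun m' hm' => ?_⟩
  have h1 : ex (slide m v u) ⊆ insert (m u) ((ex m).erase v) := by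
    intro x hx
    rw [mem_ex] at hx
    have a : x ≠ v := by rintro rfl; rw [slide_v] at hx; exact hne hx
    have b : x ≠ u := by rintro rfl; rw [slide_u m hne] at hx; exact hne hx.symm
    by_cases c : x = m u
    · simp [c]
    rw [slide_of a b c] at hx
    simp [a, mem_ex, hx]
  have h2 := card_le_card h1
  have h3 := card_insert_le (m u) ((ex m).erase v)
  rw [card_erase_of_mem (mem_ex.2 hv)] at h3
  have h4 : 1 ≤ (ex m).card := card_pos.2 ⟨v, mem_ex.2 hv⟩
  have h5 := h.max _ hm'
  omega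

/-- the alternating walk from `v` with respect to `m₂` and `m₁` -/
def sq (m₁ m₂ : V → V) (v : V) : ℕ → V
  | 0 => v
  | n + 1 => if Even n then m₂ (sq m₁ m₂ v n) else m₁ (sq m₁ m₂ v n)

theorem sq_even {m₁ m₂ : V → V} {v : V} {n : ℕ} (h : Even n) :
    sq m₁ m₂ v (n + 1) = m₂ (sq m₁ m₂ v n) := by simp [sq, h]

theorem sq_odd {m₁ m₂ : V → V} {v : V} {n : ℕ} (h : ¬ Even n) :
    sq m₁ m₂ v (n + 1) = m₁ (sq m₁ m₂ v n) := by simp [sq, h]

theorem sq_even' {m₁ m₂ : V → V} {v : V} {n : ℕ} (h2 : ∀ x, m₂ (m₂ x) = x) (h : Even n) :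
    m₂ (sq m₁ m₂ v (n + 1)) = sq m₁ m₂ v n := by rw [sq_even h, h2]

theorem sq_odd' {m₁ m₂ : V → V} {v : V} {n : ℕ} (h1 : ∀ x, m₁ (m₁ x) = x) (h : ¬ Even n) :
    m₁ (sq m₁ m₂ v (n + 1)) = sq m₁ m₂ v n := by rw [sq_odd h, h1]

/-- closed under `m₁` -/
theorem sq_cl1 {m₁ m₂ : V → V} {v : V} (h1 : ∀ x, m₁ (m₁ x) = x) (hv : m₁ v = v) (n : ℕ) :
    ∃ k, m₁ (sq m₁ m₂ v n) = sq m₁ m₂ v k := by
  by_cases h : Even n
  · cases n with
    | zero => exact ⟨0, hv⟩
    | succ n =>
      refine ⟨n, sq_odd' h1 ?_⟩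
      intro h'
      exact (Nat.not_even_iff_odd.2 h'.add_one) h
  · exact ⟨n + 1, (sq_odd h).symm⟩

/-- closed under `m₂` -/
theorem sq_cl2 {m₁ m₂ : V → V} {v : V} (h2 : ∀ x, m₂ (m₂ x) = x) (n : ℕ) :
    ∃ k, m₂ (sq m₁ m₂ v n) = sq m₁ m₂ v k := by
  by_cases h : Even n
  · exact ⟨n + 1, (sq_even h).symm⟩
  · cases n with
    | zero => exact absurd (by simp) h
    | succ n =>
      refine ⟨n, sq_even' h2 ?_⟩
      by_contra h'
      exact h (by rw [Nat.even_add_one]; exact h')

/-- the walk does not repeat a vertex before it stops -/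
theorem sq_inj {m₁ m₂ : V → V} {v : V} (h1 : ∀ x, m₁ (m₁ x) = x) (h2 : ∀ x, m₂ (m₂ x) = x)
    (hv : m₁ v = v) : ∀ (j : ℕ), (∀ i < j, sq m₁ m₂ v (i + 1) ≠ sq m₁ m₂ v i) →
      ∀ i < j, sq m₁ m₂ v i ≠ sq m₁ m₂ v j := by
  intro j
  induction j using Nat.strong_induction_on with
  | _ j ih =>
    intro hs i hij e
    obtain ⟨j, rfl⟩ : ∃ j', j = j' + 1 := ⟨j - 1, by omega⟩
    by_cases hp : Even i ↔ Even j
    · -- step i and step j are of the same type
      have key : sq m₁ m₂ v (i + 1) = sq m₁ m₂ v j := by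
        by_cases hi : Even i
        · rw [sq_even hi, e, sq_even' h2 (hp.1 hi)]
        · rw [sq_odd hi, e, sq_odd' h1 (fun h => hi (hp.2 h))]
      rcases Nat.lt_trichotomy (i + 1) j with h | h | h
      · exact ih j (by omega) (fun k hk => hs k (by omega)) (i + 1) h key
      · subst h
        by_cases hi : Even i
        · exact (Nat.not_even_iff_odd.2 hi.add_one) (hp.1 hi)
        · exact hi (hp.2 (Nat.even_add_one.2 hi))
      · have : j = i := by omega
        subst this
        exact hs j (by omega) key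
    · cases i with
      | zero =>
        have hj : ¬ Even j := fun h => hp (by simp [h])
        have e0 : sq m₁ m₂ v 0 = v := rfl
        have : sq m₁ m₂ v j = v := by rw [← sq_odd' h1 hj, ← e, e0, hv]
        exact hs j (by omega) (by rw [← e, this, e0])
      | succ i =>
        have key : sq m₁ m₂ v i = sq m₁ m₂ v j := by
          by_cases hi : Even i
          · have hj : Even j := by
              by_contra hj
              apply hp
              simp [Nat.even_add_one, hi, hj]
            rw [← sq_even' h2 hi, e, sq_even' h2 hj]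
          · have hj : ¬ Even j := by
              intro hj
              apply hp
              simp [Nat.even_add_one, hi, hj]
            rw [← sq_odd' h1 hi, e, sq_odd' h1 hj]
        exact ih j (by omega) (fun k hk => hs k (by omega)) i (by omega) key

/-- the vertices of the walk -/
noncomputable def orb (m₁ m₂ : V → V) (v : V) : Finset V :=
  (Set.toFinite (Set.range (sq m₁ m₂ v))).toFinset

theorem mem_orb {m₁ m₂ : V → V} {v x : V} : x ∈ orb m₁ m₂ v ↔ ∃ n, sq m₁ m₂ v n = x := by
  simp [orb]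

theorem orb_cl1 {m₁ m₂ : V → V} {v : V} (h1 : ∀ x, m₁ (m₁ x) = x) (hv : m₁ v = v) :
    ∀ x ∈ orb m₁ m₂ v, m₁ x ∈ orb m₁ m₂ v := by
  intro x hx
  obtain ⟨n, rfl⟩ := mem_orb.1 hx
  obtain ⟨k, hk⟩ := sq_cl1 h1 hv n
  exact mem_orb.2 ⟨k, hk.symm⟩

theorem orb_cl2 {m₁ m₂ : V → V} {v : V} (h2 : ∀ x, m₂ (m₂ x) = x) :
    ∀ x ∈ orb m₁ m₂ v, m₂ x ∈ orb m₁ m₂ v := by
  intro x hx
  obtain ⟨n, rfl⟩ := mem_orb.1 hx
  obtain ⟨k, hk⟩ := sq_cl2 h2 n
  exact mem_orb.2 ⟨k, hk.symm⟩

/-- every vertex of the walk is reached before it stops -/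
theorem sq_reach {m₁ m₂ : V → V} {v : V} (h1 : ∀ x, m₁ (m₁ x) = x) (h2 : ∀ x, m₂ (m₂ x) = x)
    (hv : m₁ v = v) {x : V} (hx : x ∈ orb m₁ m₂ v) :
    ∃ n, sq m₁ m₂ v n = x ∧ (∀ i < n, sq m₁ m₂ v (i + 1) ≠ sq m₁ m₂ v i) := by
  classical
  have hex : ∃ n, sq m₁ m₂ v n = x := mem_orb.1 hx
  refine ⟨Nat.find hex, Nat.find_spec hex, ?_⟩
  set n := Nat.find hex with hn
  have hmin : ∀ i < n, sq m₁ m₂ v i ≠ x := fun i hi => Nat.find_min hex hi
  intro i hi e
  -- reflect the walk at the stop
  have refl : ∀ k, k ≤ i → sq m₁ m₂ v (i + 1 + k) = sq m₁ m₂ v (i - k) := by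
    intro k
    induction k with
    | zero => intro _; simpa using e
    | succ k ih =>
      intro hk
      have ih := ih (by omega)
      have e1 : i + 1 + (k + 1) = (i + 1 + k) + 1 := by ring
      obtain ⟨j, hj⟩ : ∃ j, i - k = j + 1 := ⟨i - k - 1, by omega⟩
      have e2 : i - (k + 1) = j := by omega
      rw [e1, e2]
      rw [hj] at ih
      have hpar : Even (i + 1 + k) ↔ Even j := by
        have : i + 1 + k = j + 2 * (k + 1) := by omega
        rw [this]; simp [Nat.even_add]
      by_cases hp : Even (i + 1 + k)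
      · rw [sq_even hp, ih, sq_even' h2 (hpar.1 hp)]
      · rw [sq_odd hp, ih, sq_odd' h1 (fun h => hp (hpar.2 h))]
  have refl0 : ∀ k, k ≤ 2 * i + 1 → ∃ l ≤ i, sq m₁ m₂ v k = sq m₁ m₂ v l := by
    intro k hk
    by_cases h : k ≤ i
    · exact ⟨k, h, rfl⟩
    · refine ⟨2 * i + 1 - k, by omega, ?_⟩
      have := refl (k - (i + 1)) (by omega)
      rw [show i + 1 + (k - (i + 1)) = k by omega] at this
      rw [this]
      congr 1
      omega
  -- after that the walk is at v again and repeats
  have back : sq m₁ m₂ v (2 * i + 1) = v := by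
    have := refl i le_rfl
    rw [show i + 1 + i = 2 * i + 1 by ring] at this
    rw [this]; simp [sq]
  have per : ∀ k, sq m₁ m₂ v (2 * i + 2 + k) = sq m₁ m₂ v k := by
    intro k
    induction k with
    | zero =>
      have : ¬ Even (2 * i + 1) := by simp [Nat.even_add_one]
      rw [show 2 * i + 2 + 0 = (2 * i + 1) + 1 by ring, sq_odd this, back, hv]
      rfl
    | succ k ih =>
      have hpar : Even (2 * i + 2 + k) ↔ Even k := by
        simp [Nat.even_add]
      rw [show 2 * i + 2 + (k + 1) = (2 * i + 2 + k) + 1 by ring]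
      by_cases hp : Even k
      · rw [sq_even (hpar.2 hp), ih, sq_even hp]
      · rw [sq_odd (fun h => hp (hpar.1 h)), ih, sq_odd hp]
  have all : ∀ k, ∃ l ≤ i, sq m₁ m₂ v k = sq m₁ m₂ v l := by
    intro k
    induction k using Nat.strong_induction_on with
    | _ k ih =>
      by_cases h : k ≤ 2 * i + 1
      · exact refl0 k h
      · obtain ⟨j, rfl⟩ : ∃ j, k = 2 * i + 2 + j := ⟨k - (2 * i + 2), by omega⟩
        rw [per]
        exact ih j (by omega)
  obtain ⟨l, hl, hl'⟩ := all n
  exact hmin l (by omega) (by rw [← hl']; exact Nat.find_spec hex)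

/-- vertices missed by some maximum matching -/
def Dm (G : SimpleGraph V) (v : V) : Prop := ∃ m, MM G m ∧ m v = v

/-- consecutive vertices of the walk are adjacent -/
theorem sq_adj {m₁ m₂ : V → V} {v : V} (h1 : Mt G m₁) (h2 : Mt G m₂) {n : ℕ}
    (hn : sq m₁ m₂ v (n + 1) ≠ sq m₁ m₂ v n) : G.Adj (sq m₁ m₂ v n) (sq m₁ m₂ v (n + 1)) := by
  by_cases h : Even n
  · rw [sq_even h] at hn ⊢
    exact h2.adj _ hn
  · rw [sq_odd h] at hn ⊢
    exact h1.adj _ hn

/-- an odd closed chain: a list of distinct vertices, consecutive ones adjacent, the last one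
adjacent to the first one, and with an odd number of at least three vertices -/
structure OC (G : SimpleGraph V) (L : List V) : Prop where
  ne : L ≠ []
  nodup : L.Nodup
  chain : L.IsChain G.Adj
  close : G.Adj (L.getLast ne) (L.head ne)
  odd : Odd L.length
  len : 3 ≤ L.length

/-- two adjacent vertices, each missed by some maximum matching, are on a common odd cycle -/
theorem gallai {u v : V} (hu : Dm G u) (hv : Dm G v) (huv : G.Adj u v) :
    ∃ L : List V, OC G L ∧ u ∈ L ∧ v ∈ L := by
  obtain ⟨mu, hmu, hmu'⟩ := hu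
  obtain ⟨mv, hmv, hmv'⟩ := hv
  set Q := orb mv mu v with hQ
  by_cases hQu : u ∈ Q
  · obtain ⟨n, hn, hs⟩ := sq_reach hmv.inv hmu.inv hmv' hQu
    have hinj := sq_inj hmv.inv hmu.inv hmv'
    have hn0 : n ≠ 0 := by
      rintro rfl
      exact huv.ne (by rw [← hn]; rfl)
    have hev : Even n := by
      by_contra hodd
      obtain ⟨k, rfl⟩ : ∃ k, n = k + 1 := ⟨n - 1, by omega⟩
      have hk : Even k := by
        by_contra h
        exact hodd (Nat.even_add_one.2 h)
      have := sq_even' (m₁ := mv) (v := v) hmu.inv hk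
      rw [hn, hmu'] at this
      exact hs k (by omega) (by rw [hn, this])
    refine ⟨(List.range (n + 1)).map (sq mv mu v), ⟨?_, ?_, ?_, ?_, ?_, ?_⟩, ?_, ?_⟩
    · simp
    · rw [List.nodup_map_iff_inj_on List.nodup_range]
      intro i hi j hj hij
      rw [List.mem_range] at hi hj
      rcases Nat.lt_trichotomy i j with h | h | h
      · exact absurd hij (hinj j (fun k hk => hs k (by omega)) i h)
      · exact h
      · exact absurd hij.symm (hinj i (fun k hk => hs k (by omega)) j h)
    · rw [List.isChain_map, List.isChain_iff_getElem]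
      intro i hi
      simp only [List.length_range] at hi
      simp only [List.getElem_range]
      exact sq_adj hmv.toMt hmu.toMt (hs i (by omega))
    · rw [List.getLast_eq_getElem, List.head_eq_getElem]
      simp [hn, sq, huv]
    · simpa using hev.add_one
    · have : n ≠ 1 := by rintro rfl; exact absurd hev (by decide)
      simp; omega
    · rw [List.mem_map]; exact ⟨n, by simp, hn⟩
    · rw [List.mem_map]; exact ⟨0, by simp, rfl⟩
  · exfalso
    have h := mm_mix hmv hmu (orb_cl1 hmv.inv hmv') (orb_cl2 (m₁ := mv) (v := v) hmu.inv)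
    have h1 : mix Q mv mu v = v := by
      have : v ∈ Q := mem_orb.2 ⟨0, rfl⟩
      simp [mix, this, hmv']
    have h2 : mix Q mv mu u = u := by simp [mix, hQu, hmu']
    exact (mm_slide h h1 huv.symm).1 h2

end Pool.Agent.Helper79K9.RD
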